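import Mathlib

/-!
One variable theory: Gegenbauer polynomials for the sphere of `ℝ^(d+2)`, orthogonality.
-/

set_option autoImplicit false

open Polynomial Finset MeasureTheory intervalIntegral

namespace Pool.Agent.W753.VO

/-- coefficients of the zonal harmonics in dimension `d + 2` -/
noncomputable def al (d j : ℕ) : ℕ → ℝ
  | 0 => 1
  | i + 1 => -al d j i * (((j : ℝ) - 2 * i) * ((j : ℝ) - 2 * i - 1)) /
      (2 * ((i : ℝ) + 1) * (2 * (j : ℝ) - 2 * i - 2 + d))

lemma al_zero (d j : ℕ) : al d j 0 = 1 := rfl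

lemma al_succ (d j i : ℕ) (hd : 1 ≤ d) (hi : 2 * i + 2 ≤ j) :
    al d j (i + 1) * (2 * ((i : ℝ) + 1) * (2 * (j : ℝ) - 2 * i - 2 + d)) =
      -al d j i * (((j : ℝ) - 2 * i) * ((j : ℝ) - 2 * i - 1)) := by
  have h1 : (2 * (i : ℝ) + 2) ≤ j := by exact_mod_cast hi
  have h2 : (1 : ℝ) ≤ d := by exact_mod_cast hd
  have h3 : (0 : ℝ) ≤ i := by positivity
  have h4 : (0 : ℝ) < 2 * (j : ℝ) - 2 * i - 2 + d := by linarith
  have h5 : (2 * ((i : ℝ) + 1) * (2 * (j : ℝ) - 2 * i - 2 + d)) ≠ 0 := by positivity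
  rw [al, div_mul_cancel₀ _ h5]

/-- zonal polynomial of degree `j` -/
noncomputable def Cp (d j : ℕ) : ℝ[X] := ∑ i ∈ range (j / 2 + 1), C (al d j i) * X ^ (j - 2 * i)

/-- the Gegenbauer operator -/
noncomputable def L (d : ℕ) (p : ℝ[X]) : ℝ[X] :=
  (1 - X ^ 2) * derivative (derivative p) - C ((d : ℝ) + 1) * X * derivative p

lemma L_sum (d : ℕ) {ι : Type*} (s : Finset ι) (f : ι → ℝ[X]) :
    L d (∑ i ∈ s, f i) = ∑ i ∈ s, L d (f i) := by
  unfold L
  rw [derivative_sum, derivative_sum, Finset.mul_sum, Finset.mul_sum, ← Finset.sum_sub_distrib]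

lemma L_C_mul (d : ℕ) (a : ℝ) (p : ℝ[X]) : L d (C a * p) = C a * L d p := by
  unfold L
  rw [derivative_C_mul, derivative_C_mul]
  ring

lemma L_X_pow (d a : ℕ) : L d (X ^ a) =
    C ((a : ℝ) * (a - 1)) * X ^ (a - 2) - C ((a : ℝ) * (a + d)) * X ^ a := by
  unfold L
  rcases Nat.lt_or_ge a 2 with h | h
  · interval_cases a
    · simp
    · simp
      ring
  · obtain ⟨b, rfl⟩ : ∃ b, a = b + 2 := ⟨a - 2, by omega⟩
    have e1 : derivative ((X : ℝ[X]) ^ (b + 2)) = C ((b : ℝ) + 2) * X ^ (b + 1) := by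
      rw [derivative_X_pow]
      simp
    have e2 : derivative (C ((b : ℝ) + 2) * (X : ℝ[X]) ^ (b + 1)) =
        C ((b : ℝ) + 2) * (C ((b : ℝ) + 1) * X ^ b) := by
      rw [derivative_C_mul, derivative_X_pow]
      simp
    rw [e1, e2]
    have e3 : b + 2 - 2 = b := by omega
    rw [e3]
    push_cast
    simp only [map_mul, map_add, map_sub, map_natCast, map_ofNat, map_one]
    ring

/-- telescoping -/
lemma telescope {M : Type*} [AddCommGroup M] (T S : ℕ → M) (I : ℕ) (h0 : S 0 = 0)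
    (hI : T I = 0) (h : ∀ i < I, T i + S (i + 1) = 0) :
    ∑ i ∈ range (I + 1), (T i + S i) = 0 := by
  have key : ∀ J ≤ I, ∑ i ∈ range (J + 1), (T i + S i) = T J := by
    intro J
    induction J with
    | zero => intro _; simp [h0]
    | succ J ih =>
      intro hJ
      rw [Finset.sum_range_succ, ih (by omega)]
      have := h J (by omega)
      have e : T J + (T (J + 1) + S (J + 1)) = T (J + 1) + (T J + S (J + 1)) := by abel
      rw [e, this, add_zero]
  rw [key I le_rfl, hI]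

lemma ode (d j : ℕ) (hd : 1 ≤ d) : L d (Cp d j) + C ((j : ℝ) * (j + d)) * Cp d j = 0 := by
  unfold Cp
  rw [L_sum, Finset.mul_sum, ← Finset.sum_add_distrib]
  have hterm : ∀ i ∈ range (j / 2 + 1),
      L d (C (al d j i) * X ^ (j - 2 * i)) +
        C ((j : ℝ) * (j + d)) * (C (al d j i) * X ^ (j - 2 * i)) =
      C (al d j i * (((j : ℝ) - 2 * i) * ((j : ℝ) - 2 * i - 1))) * X ^ (j - 2 * i - 2) +
      C (al d j i * (2 * (i : ℝ) * (2 * (j : ℝ) - 2 * i + d))) * X ^ (j - 2 * i) := by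
    intro i hi
    have hi2 : 2 * i ≤ j := by
      have := Finset.mem_range.1 hi
      omega
    rw [L_C_mul, L_X_pow]
    have e1 : ((j - 2 * i : ℕ) : ℝ) = (j : ℝ) - 2 * i := by
      rw [Nat.cast_sub hi2]
      push_cast
      ring
    rw [e1]
    simp only [map_mul, map_add, map_sub, map_natCast, map_ofNat, map_one]
    ring
  rw [Finset.sum_congr rfl hterm]
  apply telescope (T := fun i : ℕ => C (al d j i * (((j : ℝ) - 2 * i) * ((j : ℝ) - 2 * i - 1))) *
    (X : ℝ[X]) ^ (j - 2 * i - 2)) (S := fun i : ℕ =>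
      C (al d j i * (2 * (i : ℝ) * (2 * (j : ℝ) - 2 * i + d))) * (X : ℝ[X]) ^ (j - 2 * i))
  · simp
  · have h : ((j : ℝ) - 2 * ((j / 2 : ℕ) : ℝ)) * ((j : ℝ) - 2 * ((j / 2 : ℕ) : ℝ) - 1) = 0 := by
      rcases Nat.even_or_odd' j with ⟨c, h | h⟩
      · have e : j / 2 = c := by omega
        rw [e, h]
        push_cast
        ring
      · have e : j / 2 = c := by omega
        rw [e, h]
        push_cast
        ring
    show C (al d j (j / 2) * (((j : ℝ) - 2 * ((j / 2 : ℕ) : ℝ)) *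
      ((j : ℝ) - 2 * ((j / 2 : ℕ) : ℝ) - 1))) * (X : ℝ[X]) ^ (j - 2 * (j / 2) - 2) = 0
    rw [h]
    simp
  · intro i hi
    have h2 : 2 * i + 2 ≤ j := by omega
    have := al_succ d j i hd h2
    have e : j - 2 * (i + 1) = j - 2 * i - 2 := by omega
    show C (al d j i * (((j : ℝ) - 2 * i) * ((j : ℝ) - 2 * i - 1))) * (X : ℝ[X]) ^ (j - 2 * i - 2) +
      C (al d j (i + 1) * (2 * ((i + 1 : ℕ) : ℝ) * (2 * (j : ℝ) - 2 * ((i + 1 : ℕ) : ℝ) + d))) *
        (X : ℝ[X]) ^ (j - 2 * (i + 1)) = 0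
    rw [e, ← add_mul, ← map_add]
    have e2 : al d j i * (((j : ℝ) - 2 * i) * ((j : ℝ) - 2 * i - 1)) +
        al d j (i + 1) * (2 * ((i + 1 : ℕ) : ℝ) * (2 * (j : ℝ) - 2 * ((i + 1 : ℕ) : ℝ) + d)) = 0 := by
      push_cast
      linear_combination this
    rw [e2]
    simp

lemma Cp_coeff_self (d j : ℕ) : (Cp d j).coeff j = 1 := by
  unfold Cp
  rw [finsetSum_coeff, Finset.sum_eq_single 0]
  · simp [al]
  · intro i hi hi0
    rw [coeff_C_mul, coeff_X_pow, if_neg, mul_zero]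
    have := Finset.mem_range.1 hi
    omega
  · intro h
    simp at h

lemma Cp_natDegree_le (d j : ℕ) : (Cp d j).natDegree ≤ j := by
  unfold Cp
  apply natDegree_sum_le_of_forall_le
  intro i _
  refine (natDegree_C_mul_le _ _).trans ?_
  rw [natDegree_X_pow]
  omega

lemma Cp_ne_zero (d j : ℕ) : Cp d j ≠ 0 := by
  intro h
  have := Cp_coeff_self d j
  rw [h] at this
  simp at this

/-- every polynomial is a combination of the zonal polynomials -/
lemma decomp (d N : ℕ) : ∀ f : ℝ[X], f.natDegree ≤ N →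
    ∃ a : ℕ → ℝ, f = ∑ j ∈ range (N + 1), C (a j) * Cp d j := by
  induction N with
  | zero =>
    intro f hf
    refine ⟨fun _ => f.coeff 0, ?_⟩
    rw [Finset.sum_range_one]
    have h1 : f = C (f.coeff 0) := eq_C_of_natDegree_le_zero hf
    have h2 : Cp d 0 = 1 := by
      unfold Cp
      simp [al]
    rw [h2, mul_one]
    exact h1
  | succ N ih =>
    intro f hf
    have h1 : (f - C (f.coeff (N + 1)) * Cp d (N + 1)).natDegree ≤ N := by
      have h2 : (f - C (f.coeff (N + 1)) * Cp d (N + 1)).natDegree ≤ N + 1 := by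
        refine (natDegree_sub_le _ _).trans (max_le hf ?_)
        exact (natDegree_C_mul_le _ _).trans (Cp_natDegree_le d _)
      rw [natDegree_le_iff_coeff_eq_zero]
      intro M hM
      rcases Nat.lt_or_ge (N + 1) M with h | h
      · exact natDegree_le_iff_coeff_eq_zero.1 h2 M h
      · have e : M = N + 1 := by omega
        rw [e, coeff_sub, coeff_C_mul, Cp_coeff_self, mul_one, sub_self]
    obtain ⟨a, ha⟩ := ih _ h1
    refine ⟨fun j => if j = N + 1 then f.coeff (N + 1) else a j, ?_⟩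
    rw [Finset.sum_range_succ]
    simp only [if_true]
    have h2 : ∑ j ∈ range (N + 1), C (if j = N + 1 then f.coeff (N + 1) else a j) * Cp d j =
        ∑ j ∈ range (N + 1), C (a j) * Cp d j := by
      apply Finset.sum_congr rfl
      intro j hj
      have := Finset.mem_range.1 hj
      rw [if_neg (by omega)]
    rw [h2, ← ha]
    ring

/-- integration against the zonal weight -/
noncomputable def Lam (d : ℕ) (g : ℝ[X]) : ℝ :=
  ∫ θ in (0 : ℝ)..Real.pi, g.eval (Real.cos θ) * Real.sin θ ^ d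

lemma Lam_cont (d : ℕ) (g : ℝ[X]) :
    Continuous fun θ : ℝ => g.eval (Real.cos θ) * Real.sin θ ^ d := by
  have h1 : Continuous fun θ : ℝ => g.eval (Real.cos θ) := g.continuous.comp Real.continuous_cos
  fun_prop

lemma Lam_int (d : ℕ) (g : ℝ[X]) :
    IntervalIntegrable (fun θ : ℝ => g.eval (Real.cos θ) * Real.sin θ ^ d) volume 0 Real.pi :=
  (Lam_cont d g).intervalIntegrable _ _

lemma Lam_add (d : ℕ) (f g : ℝ[X]) : Lam d (f + g) = Lam d f + Lam d g := by
  unfold Lam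
  rw [← intervalIntegral.integral_add (Lam_int d f) (Lam_int d g)]
  congr 1
  ext θ
  simp [add_mul]

lemma Lam_C_mul (d : ℕ) (a : ℝ) (g : ℝ[X]) : Lam d (C a * g) = a * Lam d g := by
  unfold Lam
  rw [← intervalIntegral.integral_const_mul]
  congr 1
  ext θ
  simp
  ring

lemma Lam_zero (d : ℕ) : Lam d 0 = 0 := by simp [Lam]

lemma Lam_sub (d : ℕ) (f g : ℝ[X]) : Lam d (f - g) = Lam d f - Lam d g := by
  have := Lam_add d (f - g) g
  rw [sub_add_cancel] at this
  linarith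

lemma Lam_sum (d : ℕ) {ι : Type*} (s : Finset ι) (f : ι → ℝ[X]) :
    Lam d (∑ i ∈ s, f i) = ∑ i ∈ s, Lam d (f i) := by
  classical
  induction s using Finset.induction_on with
  | empty => simp [Lam_zero]
  | insert a s ha ih => rw [Finset.sum_insert ha, Finset.sum_insert ha, Lam_add, ih]

/-- the fundamental identity -/
lemma Lam_fund (d : ℕ) (g : ℝ[X]) :
    Lam d (C ((d : ℝ) + 1) * X * g - (1 - X ^ 2) * derivative g) = 0 := by
  unfold Lam
  have hd : ∀ θ : ℝ, HasDerivAt (fun θ : ℝ => Real.sin θ ^ (d + 1) * g.eval (Real.cos θ))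
      ((C ((d : ℝ) + 1) * X * g - (1 - X ^ 2) * derivative g).eval (Real.cos θ) *
        Real.sin θ ^ d) θ := by
    intro θ
    have h1 := (Real.hasDerivAt_sin θ).pow (d + 1)
    have h2 : HasDerivAt (fun θ : ℝ => g.eval (Real.cos θ))
        ((derivative g).eval (Real.cos θ) * (-Real.sin θ)) θ :=
      (g.hasDerivAt (Real.cos θ)).comp θ (Real.hasDerivAt_cos θ)
    have h3 : HasDerivAt (fun θ : ℝ => Real.sin θ ^ (d + 1) * g.eval (Real.cos θ))
        (((d + 1 : ℕ) : ℝ) * Real.sin θ ^ (d + 1 - 1) * Real.cos θ * g.eval (Real.cos θ) +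
          Real.sin θ ^ (d + 1) * ((derivative g).eval (Real.cos θ) * (-Real.sin θ))) θ := h1.mul h2
    refine h3.congr_deriv ?_
    have hs : Real.cos θ ^ 2 = 1 - Real.sin θ ^ 2 := by
      have := Real.sin_sq_add_cos_sq θ
      linarith
    simp only [eval_sub, eval_mul, eval_C, eval_X, eval_pow, eval_one, Nat.add_sub_cancel,
      Nat.cast_add, Nat.cast_one]
    rw [hs]
    ring
  rw [intervalIntegral.integral_eq_sub_of_hasDerivAt (fun θ _ => hd θ) (Lam_int d _)]
  simp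

/-- symmetry of the Gegenbauer operator -/
lemma Lam_symm (d : ℕ) (p q : ℝ[X]) : Lam d (p * L d q) = Lam d (q * L d p) := by
  have h := Lam_fund d (p * derivative q - q * derivative p)
  have e : C ((d : ℝ) + 1) * X * (p * derivative q - q * derivative p) -
      (1 - X ^ 2) * derivative (p * derivative q - q * derivative p) =
      q * L d p - p * L d q := by
    unfold L
    rw [derivative_sub, derivative_mul, derivative_mul]
    ring
  rw [e, Lam_sub] at h
  linarith

lemma Lam_orth (d i j : ℕ) (hd : 1 ≤ d) (hij : i ≠ j) : Lam d (Cp d i * Cp d j) = 0 := by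
  have h1 : L d (Cp d i) = -(C ((i : ℝ) * (i + d)) * Cp d i) := eq_neg_of_add_eq_zero_left (ode d i hd)
  have h2 : L d (Cp d j) = -(C ((j : ℝ) * (j + d)) * Cp d j) := eq_neg_of_add_eq_zero_left (ode d j hd)
  have h := Lam_symm d (Cp d i) (Cp d j)
  rw [h1, h2] at h
  have e1 : Cp d i * -(C ((j : ℝ) * (j + d)) * Cp d j) =
      C (-((j : ℝ) * (j + d))) * (Cp d i * Cp d j) := by
    rw [map_neg]; ring
  have e2 : Cp d j * -(C ((i : ℝ) * (i + d)) * Cp d i) =
      C (-((i : ℝ) * (i + d))) * (Cp d i * Cp d j) := by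
    rw [map_neg]; ring
  rw [e1, e2, Lam_C_mul, Lam_C_mul] at h
  have h3 : ((i : ℝ) - j) * (i + j + d) * Lam d (Cp d i * Cp d j) = 0 := by linarith
  have h4 : ((i : ℝ) - j) ≠ 0 := sub_ne_zero.2 (by exact_mod_cast hij)
  have h5 : ((i : ℝ) + j + d) ≠ 0 := by
    have : (1 : ℝ) ≤ d := by exact_mod_cast hd
    positivity
  rcases mul_eq_zero.1 h3 with h6 | h6
  · rcases mul_eq_zero.1 h6 with h7 | h7
    · exact absurd h7 h4
    · exact absurd h7 h5
  · exact h6

lemma Lam_pos (d : ℕ) (g : ℝ[X]) (h0 : ∀ t ∈ Set.Icc (-1 : ℝ) 1, 0 ≤ g.eval t) (hg : g ≠ 0) :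
    0 < Lam d g := by
  unfold Lam
  -- find an angle
  obtain ⟨t, ht, hgt⟩ : ∃ t ∈ Set.Ioo (-1 : ℝ) 1, g.eval t ≠ 0 := by
    by_contra hcon
    push Not at hcon
    have hinf : (Set.Ioo (-1 : ℝ) 1).Infinite := Set.Ioo_infinite (by norm_num)
    exact hg (eq_zero_of_infinite_isRoot g (hinf.mono fun t ht => hcon t ht))
  apply intervalIntegral.integral_pos Real.pi_pos (Lam_cont d g).continuousOn
  · intro θ hθ
    apply mul_nonneg
    · exact h0 _ ⟨Real.neg_one_le_cos θ, Real.cos_le_one θ⟩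
    · exact pow_nonneg (Real.sin_nonneg_of_nonneg_of_le_pi hθ.1.le hθ.2) _
  · refine ⟨Real.arccos t, ⟨Real.arccos_nonneg t, Real.arccos_le_pi t⟩, ?_⟩
    rw [Real.cos_arccos ht.1.le ht.2.le]
    apply mul_pos
    · exact lt_of_le_of_ne (h0 t ⟨ht.1.le, ht.2.le⟩) (Ne.symm hgt)
    · apply pow_pos
      rw [Real.sin_arccos]
      apply Real.sqrt_pos.2
      nlinarith [ht.1, ht.2]

end Pool.Agent.W753.VO
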