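import Mathlib
import Pool.Agent.W753.VO.Gegen

/-!
The profile: a polynomial orthogonal to all polynomials of degree at most `r`, all of whose zeros
in `[-1, 1]` are close to `1`.
-/

set_option autoImplicit false

open Polynomial Finset MeasureTheory intervalIntegral Filter Topology

namespace Pool.Agent.W753.VO

/-- the variable `s = (1 + t) / 2` -/
noncomputable def sp : ℝ[X] := C (1 / 2) * (1 + X)

lemma sp_eval (t : ℝ) : sp.eval t = (1 + t) / 2 := by
  simp [sp]; ring

lemma sp_ne_zero : sp ≠ 0 := by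
  intro h
  have := sp_eval 1
  rw [h] at this
  norm_num at this

/-- moments -/
noncomputable def M (d a : ℕ) : ℝ := Lam d (sp ^ a)

lemma M_pos (d a : ℕ) : 0 < M d a := by
  apply Lam_pos
  · intro t ht
    rw [eval_pow, sp_eval]
    apply pow_nonneg
    linarith [ht.1]
  · exact pow_ne_zero _ sp_ne_zero

lemma M_rec (d a : ℕ) : ((a : ℝ) + d + 1) * M d (a + 1) = ((a : ℝ) + (d + 1) / 2) * M d a := by
  have h := Lam_fund d (sp ^ a)
  have e : C ((d : ℝ) + 1) * X * sp ^ a - (1 - X ^ 2) * derivative (sp ^ a) =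
      C (2 * ((d : ℝ) + 1) + 2 * a) * sp ^ (a + 1) - C ((d : ℝ) + 1 + 2 * a) * sp ^ a := by
    have hX : (X : ℝ[X]) = C 2 * sp - 1 := by
      unfold sp
      rw [← mul_assoc, ← C_mul]
      norm_num
    have hds : derivative sp = C (1 / 2) := by
      unfold sp
      rw [derivative_C_mul]
      simp
    have h1 : (1 - (X : ℝ[X]) ^ 2) = C 4 * sp * (1 - sp) := by
      rw [hX]
      have c4 : (C 4 : ℝ[X]) = 4 := map_ofNat C 4
      have c2 : (C 2 : ℝ[X]) = 2 := map_ofNat C 2
      rw [c4, c2]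
      ring
    have h2 : (1 - (X : ℝ[X]) ^ 2) * derivative (sp ^ a) = C (2 * (a : ℝ)) * sp ^ a * (1 - sp) := by
      rw [h1, derivative_pow, hds]
      rcases Nat.eq_zero_or_pos a with h0 | h0
      · subst h0; simp
      · obtain ⟨b, rfl⟩ : ∃ b, a = b + 1 := ⟨a - 1, by omega⟩
        rw [Nat.add_sub_cancel]
        have : (C 4 : ℝ[X]) * C (1 / 2) = C 2 := by rw [← C_mul]; norm_num
        rw [map_mul, pow_succ]
        linear_combination (C ((b + 1 : ℕ) : ℝ) * sp ^ b * sp * (1 - sp)) * this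
    rw [h2]
    nth_rewrite 1 [hX]
    simp only [map_mul, map_add]
    ring
  rw [e, Lam_sub, Lam_C_mul, Lam_C_mul] at h
  unfold M
  linarith

lemma M_prod (d a j : ℕ) : M d (a + j) * ∏ l ∈ range j, ((a : ℝ) + l + d + 1) =
    M d a * ∏ l ∈ range j, ((a : ℝ) + l + (d + 1) / 2) := by
  induction j with
  | zero => simp
  | succ j ih =>
    rw [Finset.prod_range_succ, Finset.prod_range_succ]
    have h := M_rec d (a + j)
    push_cast at h
    rw [show a + (j + 1) = a + j + 1 by ring]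
    linear_combination (∏ l ∈ range j, ((a : ℝ) + l + d + 1)) * h +
      ((a : ℝ) + j + (d + 1) / 2) * ih

/-- coefficients -/
noncomputable def cc (d r a : ℕ) : ℝ := (∏ l ∈ range r, ((a : ℝ) + l + d + 1)) / M d a

lemma cc_pos (d r a : ℕ) : 0 < cc d r a := by
  unfold cc
  apply div_pos _ (M_pos d a)
  apply Finset.prod_pos
  intro l _
  positivity

/-- the polynomial in `a` -/
noncomputable def PP (d r j : ℕ) : ℝ[X] :=
  (∏ l ∈ range j, (X + C ((l : ℝ) + (d + 1) / 2))) * ∏ l ∈ Ico j r, (X + C ((l : ℝ) + d + 1))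

lemma PP_natDegree (d r j : ℕ) (hj : j ≤ r) : (PP d r j).natDegree ≤ r := by
  unfold PP
  refine natDegree_mul_le.trans ?_
  have h1 : (∏ l ∈ range j, ((X : ℝ[X]) + C ((l : ℝ) + (d + 1) / 2))).natDegree ≤ j := by
    refine (natDegree_prod_le _ _).trans ?_
    simp only [natDegree_X_add_C, Finset.sum_const, card_range, smul_eq_mul, mul_one]
    exact le_rfl
  have h2 : (∏ l ∈ Ico j r, ((X : ℝ[X]) + C ((l : ℝ) + d + 1))).natDegree ≤ r - j := by
    refine (natDegree_prod_le _ _).trans ?_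
    simp only [natDegree_X_add_C, Finset.sum_const, Nat.card_Ico, smul_eq_mul, mul_one]
    exact le_rfl
  omega

lemma cc_mul_M (d r a j : ℕ) (hj : j ≤ r) : cc d r a * M d (a + j) = (PP d r j).eval (a : ℝ) := by
  unfold cc PP
  rw [eval_mul, eval_prod, eval_prod]
  simp only [eval_add, eval_X, eval_C]
  have h := M_prod d a j
  have hM := (M_pos d a).ne'
  have hsplit : ∏ l ∈ range r, ((a : ℝ) + l + d + 1) =
      (∏ l ∈ range j, ((a : ℝ) + l + d + 1)) * ∏ l ∈ Ico j r, ((a : ℝ) + l + d + 1) :=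
    (Finset.prod_range_mul_prod_Ico _ hj).symm
  rw [hsplit, div_mul_eq_mul_div, div_eq_iff hM]
  have e1 : ∏ l ∈ range j, ((a : ℝ) + ((l : ℝ) + (d + 1) / 2)) =
      ∏ l ∈ range j, ((a : ℝ) + l + (d + 1) / 2) := by
    apply Finset.prod_congr rfl; intro l _; ring
  have e2 : ∏ l ∈ Ico j r, ((a : ℝ) + ((l : ℝ) + d + 1)) =
      ∏ l ∈ Ico j r, ((a : ℝ) + l + d + 1) := by
    apply Finset.prod_congr rfl; intro l _; ring
  rw [e1, e2]
  linear_combination (∏ l ∈ Ico j r, ((a : ℝ) + l + d + 1)) * h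

/-- signed coefficients of the profile -/
noncomputable def cf (d r m i : ℕ) : ℝ := (-1) ^ i * ((r + 1).choose i : ℝ) * cc d r (m * i)

/-- outer polynomial -/
noncomputable def Qp (d r m : ℕ) : ℝ[X] := ∑ i ∈ range (r + 2), C (cf d r m i) * X ^ i

/-- the profile -/
noncomputable def ff (d r m : ℕ) : ℝ[X] := ∑ i ∈ range (r + 2), C (cf d r m i) * sp ^ (m * i)

lemma ff_eval (d r m : ℕ) (t : ℝ) : (ff d r m).eval t = (Qp d r m).eval (((1 + t) / 2) ^ m) := by
  unfold ff Qp
  rw [eval_finsetSum, eval_finsetSum]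
  apply Finset.sum_congr rfl
  intro i _
  simp only [eval_mul, eval_C, eval_pow, eval_X, sp_eval, ← pow_mul]

lemma Qp_coeff_zero (d r m : ℕ) : (Qp d r m).coeff 0 = cc d r 0 := by
  unfold Qp
  rw [finsetSum_coeff, Finset.sum_eq_single 0]
  · simp [cf]
  · intro i _ hi
    rw [coeff_C_mul, coeff_X_pow, if_neg (Ne.symm hi), mul_zero]
  · intro h; simp at h

lemma Qp_ne_zero (d r m : ℕ) : Qp d r m ≠ 0 := by
  intro h
  have h1 := Qp_coeff_zero d r m
  rw [h, coeff_zero] at h1
  exact (cc_pos d r 0).ne h1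

lemma Qp_natDegree (d r m : ℕ) : (Qp d r m).natDegree ≤ r + 1 := by
  unfold Qp
  apply natDegree_sum_le_of_forall_le
  intro i hi
  refine (natDegree_C_mul_le _ _).trans ?_
  rw [natDegree_X_pow]
  have := Finset.mem_range.1 hi
  omega

lemma diff_zero (r m : ℕ) (P : ℝ[X]) (hP : P.natDegree ≤ r) :
    ∑ i ∈ range (r + 2), (-1 : ℝ) ^ i * ((r + 1).choose i : ℝ) * P.eval ((m * i : ℕ) : ℝ) = 0 := by
  have h1 : (P.comp (C (m : ℝ) * X)).natDegree < r + 1 := by
    refine lt_of_le_of_lt natDegree_comp_le ?_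
    have : (C (m : ℝ) * X : ℝ[X]).natDegree ≤ 1 := (natDegree_C_mul_le _ _).trans natDegree_X_le
    calc P.natDegree * (C (m : ℝ) * X : ℝ[X]).natDegree ≤ r * 1 := Nat.mul_le_mul hP this
      _ < r + 1 := by omega
  have h2 := congrFun (Polynomial.fwdDiff_iter_eq_zero_of_degree_lt h1) 0
  rw [fwdDiff_iter_eq_sum_shift] at h2
  simp only [Pi.zero_apply] at h2
  have h3 : ∑ i ∈ range (r + 2), (-1 : ℝ) ^ i * ((r + 1).choose i : ℝ) * P.eval ((m * i : ℕ) : ℝ) =
      (-1 : ℝ) ^ (r + 1) * ∑ k ∈ range (r + 1 + 1), ((-1 : ℤ) ^ (r + 1 - k) * ((r + 1).choose k : ℤ)) •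
        (P.comp (C (m : ℝ) * X)).eval (0 + k • (1 : ℝ)) := by
    rw [Finset.mul_sum]
    apply Finset.sum_congr rfl
    intro i hi
    have hi' : i ≤ r + 1 := by
      have := Finset.mem_range.1 hi
      omega
    rw [eval_comp, zsmul_eq_mul]
    simp only [eval_mul, eval_C, eval_X, nsmul_eq_mul, mul_one, zero_add]
    push_cast
    have hs : (-1 : ℝ) ^ (r + 1) * (-1 : ℝ) ^ (r + 1 - i) = (-1) ^ i := by
      obtain ⟨b, hb⟩ : ∃ b, r + 1 = i + b := ⟨r + 1 - i, by omega⟩
      rw [hb, Nat.add_sub_cancel_left, pow_add, mul_assoc, ← mul_pow]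
      norm_num
    linear_combination (-((r + 1).choose i : ℝ) * eval ((m : ℝ) * i) P) * hs
  rw [h3, h2, mul_zero]

lemma Lam_ff_sp (d r m j : ℕ) (hj : j ≤ r) : Lam d (ff d r m * sp ^ j) = 0 := by
  unfold ff
  rw [Finset.sum_mul, Lam_sum]
  have h : ∀ i ∈ range (r + 2), Lam d (C (cf d r m i) * sp ^ (m * i) * sp ^ j) =
      (-1 : ℝ) ^ i * ((r + 1).choose i : ℝ) * (PP d r j).eval ((m * i : ℕ) : ℝ) := by
    intro i _
    rw [mul_assoc, Lam_C_mul, ← pow_add]
    have := cc_mul_M d r (m * i) j hj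
    unfold cf
    rw [← this]
    unfold M
    ring
  rw [Finset.sum_congr rfl h]
  exact diff_zero r m _ (PP_natDegree d r j hj)

lemma Lam_ff (d r m : ℕ) (g : ℝ[X]) (hg : g.natDegree ≤ r) : Lam d (ff d r m * g) = 0 := by
  set h : ℝ[X] := g.comp (C 2 * X - 1) with hh
  have h1 : g = h.comp sp := by
    rw [hh, comp_assoc]
    have : (C 2 * X - 1 : ℝ[X]).comp sp = X := by
      simp only [sub_comp, mul_comp, C_comp, X_comp, one_comp]
      unfold sp
      rw [← mul_assoc, ← C_mul]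
      norm_num
    rw [this, comp_X]
  have h2 : h.natDegree ≤ r := by
    rw [hh]
    refine natDegree_comp_le.trans ?_
    have : (C 2 * X - 1 : ℝ[X]).natDegree ≤ 1 := by
      refine (natDegree_sub_le _ _).trans (max_le ((natDegree_C_mul_le _ _).trans natDegree_X_le) ?_)
      simp
    calc g.natDegree * (C 2 * X - 1 : ℝ[X]).natDegree ≤ r * 1 := Nat.mul_le_mul hg this
      _ = r := mul_one r
  have h3 : h.comp sp = ∑ j ∈ range (r + 1), C (h.coeff j) * sp ^ j := by
    rw [comp, eval₂_eq_sum_range' C (Nat.lt_succ_of_le h2)]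
  rw [h1, h3, Finset.mul_sum, Lam_sum]
  apply Finset.sum_eq_zero
  intro j hj
  have hj' : j ≤ r := by
    have := Finset.mem_range.1 hj
    omega
  have e : ff d r m * (C (h.coeff j) * sp ^ j) = C (h.coeff j) * (ff d r m * sp ^ j) := by ring
  rw [e, Lam_C_mul, Lam_ff_sp d r m j hj', mul_zero]

/-- expansion of the profile in zonal polynomials of degree `> r` -/
lemma ff_decomp (d r m : ℕ) (hd : 1 ≤ d) : ∃ (N : ℕ) (a : ℕ → ℝ),
    (∀ j ≤ r, a j = 0) ∧ ff d r m = ∑ j ∈ range (N + 1), C (a j) * Cp d j := by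
  obtain ⟨a, ha⟩ := decomp d (max (ff d r m).natDegree r) (ff d r m) (le_max_left _ _)
  refine ⟨max (ff d r m).natDegree r, a, ?_, ha⟩
  intro j hj
  have h1 := Lam_ff d r m (Cp d j) ((Cp_natDegree_le d j).trans hj)
  rw [ha, Finset.sum_mul, Lam_sum, Finset.sum_eq_single j] at h1
  · rw [mul_assoc, Lam_C_mul] at h1
    have h2 : 0 < Lam d (Cp d j * Cp d j) := by
      apply Lam_pos
      · intro t _
        rw [eval_mul]
        exact mul_self_nonneg _
      · exact mul_ne_zero (Cp_ne_zero d j) (Cp_ne_zero d j)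
    rcases mul_eq_zero.1 h1 with h | h
    · exact h
    · exact absurd h h2.ne'
  · intro i _ hij
    rw [mul_assoc, Lam_C_mul, Lam_orth d i j hd hij, mul_zero]
  · intro h
    exfalso
    apply h
    rw [Finset.mem_range]
    have : r ≤ max (ff d r m).natDegree r := le_max_right _ _
    omega

lemma cc_tendsto (d r : ℕ) (x : ℝ) (hx0 : 0 < x) (hx1 : x < 1) :
    Tendsto (fun a : ℕ => cc d r a * x ^ a) atTop (𝓝 0) := by
  apply Summable.tendsto_atTop_zero
  apply summable_of_ratio_test_tendsto_lt_one hx1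
  · filter_upwards with a
    exact (mul_pos (cc_pos d r a) (pow_pos hx0 a)).ne'
  · have hratio : ∀ a : ℕ, ‖cc d r (a + 1) * x ^ (a + 1)‖ / ‖cc d r a * x ^ a‖ =
        x * (((a : ℝ) + r + d + 1) / ((a : ℝ) + (d + 1) / 2)) := by
      intro a
      rw [Real.norm_of_nonneg (mul_pos (cc_pos d r _) (pow_pos hx0 _)).le,
        Real.norm_of_nonneg (mul_pos (cc_pos d r _) (pow_pos hx0 _)).le]
      have hM := M_rec d a
      have hM0 := (M_pos d a)
      have hM1 := (M_pos d (a + 1))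
      have hp : (∏ l ∈ range r, (((a + 1 : ℕ) : ℝ) + l + d + 1)) * ((a : ℝ) + d + 1) =
          (∏ l ∈ range r, ((a : ℝ) + l + d + 1)) * ((a : ℝ) + r + d + 1) := by
        have e1 := Finset.prod_range_succ' (fun l : ℕ => (a : ℝ) + l + d + 1) r
        have e2 := Finset.prod_range_succ (fun l : ℕ => (a : ℝ) + l + d + 1) r
        rw [e2] at e1
        rw [e1]
        have e3 : ∏ l ∈ range r, (((a + 1 : ℕ) : ℝ) + l + d + 1) =
            ∏ l ∈ range r, ((a : ℝ) + ((l + 1 : ℕ) : ℝ) + d + 1) := by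
          apply Finset.prod_congr rfl
          intro l _
          push_cast
          ring
        rw [e3]
        push_cast
        ring
      have hp0 : 0 < ∏ l ∈ range r, ((a : ℝ) + l + d + 1) := by
        apply Finset.prod_pos; intro l _; positivity
      have hx : 0 < x ^ a := pow_pos hx0 a
      unfold cc
      rw [div_eq_iff (by positivity)]
      have h5 : (0 : ℝ) < (a : ℝ) + (d + 1) / 2 := by positivity
      have h6 : (0 : ℝ) < (a : ℝ) + d + 1 := by positivity
      field_simp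
      have hM' : 2 * ((a : ℝ) + d + 1) * M d (a + 1) = (a * 2 + (d + 1)) * M d a := by linarith
      -- multiply by `(a + d + 1)`
      apply mul_right_cancel₀ h6.ne'
      rw [pow_succ]
      linear_combination (M d a * x ^ a * x * ((a : ℝ) * 2 + (d + 1))) * hp -
        (x ^ a * x * (∏ l ∈ range r, ((a : ℝ) + l + d + 1)) * ((a : ℝ) + r + d + 1)) * hM'
    simp only [hratio]
    have h1 : Tendsto (fun a : ℕ => ((a : ℝ) + r + d + 1) / ((a : ℝ) + (d + 1) / 2)) atTop (𝓝 1) := by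
      have h2 : ∀ a : ℕ, ((a : ℝ) + r + d + 1) / ((a : ℝ) + (d + 1) / 2) =
          1 + ((r : ℝ) + (d + 1) / 2) * ((a : ℝ) + (d + 1) / 2)⁻¹ := by
        intro a
        have h5 : (0 : ℝ) < (a : ℝ) + (d + 1) / 2 := by positivity
        field_simp
        ring
      simp only [h2]
      have h3 : Tendsto (fun a : ℕ => ((a : ℝ) + (d + 1) / 2)⁻¹) atTop (𝓝 0) :=
        (tendsto_atTop_add_const_right _ _ tendsto_natCast_atTop_atTop).inv_tendsto_atTop
      have h4 := (h3.const_mul ((r : ℝ) + (d + 1) / 2)).const_add 1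
      simpa using h4
    simpa using h1.const_mul x

/-- for large `m` all zeros of the profile are near `1` -/
lemma zeros_near (d r : ℕ) (x : ℝ) (hx0 : 0 < x) (hx1 : x < 1) :
    ∃ m : ℕ, 0 < m ∧ ∀ s : ℝ, 0 ≤ s → s ≤ x → (Qp d r m).eval (s ^ m) ≠ 0 := by
  have hlim : Tendsto (fun m : ℕ => ∑ i ∈ range (r + 1),
      ((r + 1).choose (i + 1) : ℝ) * (cc d r (m * (i + 1)) * x ^ (m * (i + 1)))) atTop
      (𝓝 (∑ i ∈ range (r + 1), ((r + 1).choose (i + 1) : ℝ) * 0)) := by
    apply tendsto_finsetSum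
    intro i _
    apply Tendsto.const_mul
    exact (cc_tendsto d r x hx0 hx1).comp
      (tendsto_atTop_mono (fun m => Nat.le_mul_of_pos_right m (Nat.succ_pos i)) tendsto_id)
  simp only [mul_zero, Finset.sum_const_zero] at hlim
  obtain ⟨m, hm, hm0⟩ := ((hlim.eventually_lt_const (cc_pos d r 0)).and
    (eventually_gt_atTop 0)).exists
  refine ⟨m, hm0, ?_⟩
  intro s hs0 hsx hzero
  unfold Qp at hzero
  rw [eval_finsetSum, Finset.sum_range_succ'] at hzero
  simp only [eval_mul, eval_C, eval_pow, eval_X, pow_zero, mul_one] at hzero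
  have h0 : cf d r m 0 = cc d r 0 := by simp [cf]
  rw [h0] at hzero
  have hbound : |∑ i ∈ range (r + 1), cf d r m (i + 1) * (s ^ m) ^ (i + 1)| ≤
      ∑ i ∈ range (r + 1),
        ((r + 1).choose (i + 1) : ℝ) * (cc d r (m * (i + 1)) * x ^ (m * (i + 1))) := by
    refine (Finset.abs_sum_le_sum_abs _ _).trans (Finset.sum_le_sum ?_)
    intro i _
    rw [abs_mul]
    unfold cf
    rw [abs_mul, abs_mul, abs_pow, abs_neg, abs_one, one_pow, one_mul,
      abs_of_nonneg (Nat.cast_nonneg _), abs_of_pos (cc_pos d r _), ← pow_mul,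
      abs_of_nonneg (pow_nonneg hs0 _), mul_assoc]
    have h1 : s ^ (m * (i + 1)) ≤ x ^ (m * (i + 1)) := pow_le_pow_left₀ hs0 hsx _
    have h2 := (cc_pos d r (m * (i + 1))).le
    gcongr
  have h3 : ∑ i ∈ range (r + 1), cf d r m (i + 1) * (s ^ m) ^ (i + 1) = -cc d r 0 := by linarith
  rw [h3, abs_neg, abs_of_pos (cc_pos d r 0)] at hbound
  linarith

end Pool.Agent.W753.VO
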