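import Mathlib
import Pool.Agent.Helper749.Bi.Basic
import Pool.Agent.W753.VO.Mom

/-!
Zonal solid harmonics on `ℝ^(d+2)`.
-/

set_option autoImplicit false

open Finset
open scoped ContDiff

namespace Pool.Agent.W753.VO

open Pool.Agent.Helper749.Bi (E ev pd lap pd_smooth lap_eq lap_mul lap_sum lap_cmul lap_scale
  pd_cmul pd_mul smooth_scale)

variable {d : ℕ}

/-- first coordinate -/
def zc (x : E (d + 2)) : ℝ := x 0

/-- squared norm -/
noncomputable def qc (x : E (d + 2)) : ℝ := ‖x‖ ^ 2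

lemma zc_smooth : ContDiff ℝ ∞ (zc : E (d + 2) → ℝ) := by
  unfold zc; fun_prop

lemma coord_smooth (i : Fin (d + 2)) : ContDiff ℝ ∞ (fun x : E (d + 2) => x i) := by
  fun_prop

lemma qc_smooth : ContDiff ℝ ∞ (qc : E (d + 2) → ℝ) := by
  unfold qc; exact contDiff_norm_sq ℝ

lemma pd_coord (i j : Fin (d + 2)) :
    pd i (fun x : E (d + 2) => x j) = fun _ => if j = i then 1 else 0 := by
  funext x
  unfold pd
  have : HasFDerivAt (fun x : E (d + 2) => x j) (EuclideanSpace.proj j : E (d + 2) →L[ℝ] ℝ) x :=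
    (EuclideanSpace.proj j : E (d + 2) →L[ℝ] ℝ).hasFDerivAt
  rw [this.fderiv]
  simp

lemma pd_zc (i : Fin (d + 2)) : pd i (zc : E (d + 2) → ℝ) = fun _ => if 0 = i then 1 else 0 :=
  pd_coord i 0

lemma pd_qc (i : Fin (d + 2)) : pd i (qc : E (d + 2) → ℝ) = fun x => 2 * x i := by
  funext x
  unfold pd qc
  have h : HasFDerivAt (fun x : E (d + 2) => ‖x‖ ^ 2) (2 • (innerSL ℝ x)) x :=
    (hasStrictFDerivAt_norm_sq x).hasFDerivAt
  rw [h.fderiv]
  simp [EuclideanSpace.inner_single_right]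

lemma pd_pow {f : E (d + 2) → ℝ} (hf : ContDiff ℝ ∞ f) (a : ℕ) (i : Fin (d + 2)) :
    pd i (fun x => f x ^ a) = fun x => (a : ℝ) * f x ^ (a - 1) * pd i f x := by
  funext x
  unfold pd
  have h1 := (Pool.Agent.Helper749.Bi.dif hf x).hasFDerivAt.pow a
  have h2 : HasFDerivAt (fun x => f x ^ a) (((a : ℝ) * f x ^ (a - 1)) • fderiv ℝ f x) x := by
    refine h1.congr_fderiv ?_
    ext v
    simp
  rw [h2.fderiv]
  simp

lemma lap_zpow (a : ℕ) :
    lap (fun x : E (d + 2) => zc x ^ a) = fun x => (a : ℝ) * (a - 1) * zc x ^ (a - 2) := by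
  rw [lap_eq (zc_smooth.pow a)]
  funext x
  have h : ∀ i : Fin (d + 2), pd i (pd i (fun x : E (d + 2) => zc x ^ a)) x =
      if 0 = i then (a : ℝ) * (a - 1) * zc x ^ (a - 2) else 0 := by
    intro i
    rw [pd_pow zc_smooth]
    simp only [pd_zc]
    by_cases hi : 0 = i
    · simp only [hi, if_true, mul_one]
      rw [pd_cmul (zc_smooth.pow _), pd_pow zc_smooth, pd_zc]
      simp only [hi, if_true, mul_one]
      rcases Nat.eq_zero_or_pos a with h0 | h0
      · subst h0; simp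
      · have e : a - 1 - 1 = a - 2 := by omega
        rw [e, Nat.cast_sub h0]
        push_cast
        ring
    · simp only [hi, if_false, mul_zero]
      unfold pd
      simp
  simp only [h]
  rw [Finset.sum_ite_eq]
  simp

lemma sum_sq (x : E (d + 2)) : ∑ i, x i ^ 2 = qc x := by
  unfold qc
  rw [EuclideanSpace.norm_sq_eq]
  simp

lemma lap_qpow (b : ℕ) :
    lap (fun x : E (d + 2) => qc x ^ b) =
      fun x => 2 * (b : ℝ) * (d + 2 * b) * qc x ^ (b - 1) := by
  rw [lap_eq (qc_smooth.pow b)]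
  funext x
  have h : ∀ i : Fin (d + 2), pd i (pd i (fun x : E (d + 2) => qc x ^ b)) x =
      2 * (b : ℝ) * (((b - 1 : ℕ) : ℝ) * qc x ^ (b - 1 - 1) * (2 * x i ^ 2) + qc x ^ (b - 1)) := by
    intro i
    rw [pd_pow qc_smooth]
    simp only [pd_qc]
    have e : (fun x : E (d + 2) => (b : ℝ) * qc x ^ (b - 1) * (2 * x i)) =
        fun x => (2 * (b : ℝ)) * (qc x ^ (b - 1) * x i) := by
      funext x; ring
    rw [e, pd_cmul ((qc_smooth.pow _).mul (coord_smooth i)),
      pd_mul (qc_smooth.pow _) (coord_smooth i), pd_pow qc_smooth, pd_qc, pd_coord]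
    simp only [if_true]
    ring
  simp only [h]
  rw [← Finset.mul_sum, Finset.sum_add_distrib, ← Finset.mul_sum, ← Finset.mul_sum, sum_sq]
  simp only [Finset.sum_const, Finset.card_univ, Fintype.card_fin, nsmul_eq_mul]
  rcases Nat.eq_zero_or_pos b with h0 | h0
  · subst h0; simp
  · rcases Nat.lt_or_ge b 2 with h2 | h2
    · have : b = 1 := by omega
      subst this
      simp
    · obtain ⟨c, rfl⟩ : ∃ c, b = c + 2 := ⟨b - 2, by omega⟩
      have e1 : c + 2 - 1 = c + 1 := by omega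
      have e2 : c + 1 - 1 = c := by omega
      rw [e1, e2]
      push_cast
      rw [pow_succ]
      ring

lemma lap_mono (a b : ℕ) :
    lap (fun x : E (d + 2) => zc x ^ a * qc x ^ b) = fun x =>
      (a : ℝ) * (a - 1) * zc x ^ (a - 2) * qc x ^ b +
        2 * (b : ℝ) * (d + 2 * b + 2 * a) * zc x ^ a * qc x ^ (b - 1) := by
  rw [lap_mul (zc_smooth.pow a) (qc_smooth.pow b), lap_zpow, lap_qpow]
  funext x
  have h : ∑ i, pd i (fun x : E (d + 2) => zc x ^ a) x * pd i (fun x : E (d + 2) => qc x ^ b) x =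
      2 * (a : ℝ) * b * zc x ^ a * qc x ^ (b - 1) := by
    have h1 : ∀ i : Fin (d + 2), pd i (fun x : E (d + 2) => zc x ^ a) x *
        pd i (fun x : E (d + 2) => qc x ^ b) x =
        if 0 = i then 2 * (a : ℝ) * b * zc x ^ a * qc x ^ (b - 1) else 0 := by
      intro i
      rw [pd_pow zc_smooth, pd_pow qc_smooth]
      simp only [pd_zc, pd_qc]
      by_cases hi : 0 = i
      · subst hi
        simp only [if_true, mul_one]
        rcases Nat.eq_zero_or_pos a with h0 | h0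
        · subst h0; simp
        · obtain ⟨c, rfl⟩ : ∃ c, a = c + 1 := ⟨a - 1, by omega⟩
          rw [Nat.add_sub_cancel, pow_succ]
          have : zc x = x 0 := rfl
          rw [← this]
          ring
      · simp [hi]
    simp only [h1]
    rw [Finset.sum_ite_eq]
    simp
  rw [h]
  ring

/-- zonal solid harmonic -/
noncomputable def Hh (d j : ℕ) (x : E (d + 2)) : ℝ :=
  ∑ i ∈ range (j / 2 + 1), al d j i * (zc x ^ (j - 2 * i) * qc x ^ i)

lemma Hh_smooth (d j : ℕ) : ContDiff ℝ ∞ (Hh d j) := by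
  unfold Hh
  apply ContDiff.sum
  intro i _
  exact contDiff_const.mul ((zc_smooth.pow _).mul (qc_smooth.pow _))

lemma Hh_lap (d j : ℕ) (hd : 1 ≤ d) (x : E (d + 2)) : lap (Hh d j) x = 0 := by
  have hs : ∀ i : ℕ, ContDiff ℝ ∞ (fun x : E (d + 2) => zc x ^ (j - 2 * i) * qc x ^ i) :=
    fun i => (zc_smooth.pow _).mul (qc_smooth.pow _)
  have h1 : lap (Hh d j) = fun x => ∑ i ∈ range (j / 2 + 1),
      al d j i * lap (fun x : E (d + 2) => zc x ^ (j - 2 * i) * qc x ^ i) x := by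
    unfold Hh
    rw [lap_sum (range (j / 2 + 1)) (fun i => contDiff_const.mul (hs i))]
    funext x
    apply Finset.sum_congr rfl
    intro i _
    rw [lap_cmul (hs i)]
  rw [h1]
  simp only [lap_mono]
  have hterm : ∀ i ∈ range (j / 2 + 1),
      al d j i * (((j - 2 * i : ℕ) : ℝ) * (((j - 2 * i : ℕ) : ℝ) - 1) * zc x ^ (j - 2 * i - 2) *
        qc x ^ i + 2 * (i : ℝ) * (d + 2 * i + 2 * ((j - 2 * i : ℕ) : ℝ)) * zc x ^ (j - 2 * i) *
          qc x ^ (i - 1)) =
      al d j i * (((j : ℝ) - 2 * i) * ((j : ℝ) - 2 * i - 1)) * (zc x ^ (j - 2 * i - 2) * qc x ^ i) +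
      al d j i * (2 * (i : ℝ) * (2 * (j : ℝ) - 2 * i + d)) *
        (zc x ^ (j - 2 * i) * qc x ^ (i - 1)) := by
    intro i hi
    have hi2 : 2 * i ≤ j := by
      have := Finset.mem_range.1 hi
      omega
    have e1 : ((j - 2 * i : ℕ) : ℝ) = (j : ℝ) - 2 * i := by
      rw [Nat.cast_sub hi2]
      push_cast
      ring
    rw [e1]
    ring
  rw [Finset.sum_congr rfl hterm]
  apply telescope (T := fun i : ℕ => al d j i * (((j : ℝ) - 2 * i) * ((j : ℝ) - 2 * i - 1)) *
      (zc x ^ (j - 2 * i - 2) * qc x ^ i)) (S := fun i : ℕ =>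
      al d j i * (2 * (i : ℝ) * (2 * (j : ℝ) - 2 * i + d)) *
        (zc x ^ (j - 2 * i) * qc x ^ (i - 1)))
  · simp
  · have h : ((j : ℝ) - 2 * ((j / 2 : ℕ) : ℝ)) * ((j : ℝ) - 2 * ((j / 2 : ℕ) : ℝ) - 1) = 0 := by
      rcases Nat.even_or_odd' j with ⟨c, h | h⟩
      · have e : j / 2 = c := by omega
        rw [e, h]
        push_cast
        ring
      · have e : j / 2 = c := by omega
        rw [e, h]
        push_cast
        ring
    show al d j (j / 2) * (((j : ℝ) - 2 * ((j / 2 : ℕ) : ℝ)) *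
      ((j : ℝ) - 2 * ((j / 2 : ℕ) : ℝ) - 1)) * _ = 0
    rw [h]
    simp
  · intro i hi
    have h2 : 2 * i + 2 ≤ j := by omega
    have := al_succ d j i hd h2
    have e : j - 2 * (i + 1) = j - 2 * i - 2 := by omega
    show al d j i * (((j : ℝ) - 2 * i) * ((j : ℝ) - 2 * i - 1)) *
      (zc x ^ (j - 2 * i - 2) * qc x ^ i) +
      al d j (i + 1) * (2 * ((i + 1 : ℕ) : ℝ) * (2 * (j : ℝ) - 2 * ((i + 1 : ℕ) : ℝ) + d)) *
        (zc x ^ (j - 2 * (i + 1)) * qc x ^ (i + 1 - 1)) = 0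
    rw [e, Nat.add_sub_cancel]
    push_cast
    linear_combination (zc x ^ (j - 2 * i - 2) * qc x ^ i) * this

lemma Hh_sphere (d j : ℕ) (x : E (d + 2)) (hx : ‖x‖ = 1) : Hh d j x = (Cp d j).eval (x 0) := by
  unfold Hh Cp
  rw [Polynomial.eval_finsetSum]
  apply Finset.sum_congr rfl
  intro i _
  simp [qc, hx, zc]

lemma Hh_homog (d j : ℕ) (t : ℝ) (x : E (d + 2)) : Hh d j (t • x) = t ^ j * Hh d j x := by
  unfold Hh
  rw [Finset.mul_sum]
  apply Finset.sum_congr rfl
  intro i hi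
  have hi2 : 2 * i ≤ j := by
    have := Finset.mem_range.1 hi
    omega
  have e1 : zc (t • x) = t * zc x := by simp [zc]
  have e2 : qc (t • x) = t ^ 2 * qc x := by
    unfold qc
    rw [norm_smul, mul_pow, Real.norm_eq_abs, sq_abs]
  have e3 : t ^ j = t ^ (j - 2 * i) * (t ^ 2) ^ i := by
    rw [← pow_mul, ← pow_add]
    congr 1
    omega
  rw [e1, e2, mul_pow, mul_pow, e3]
  ring

/-- derivatives at the origin of a homogeneous smooth function -/
lemma iter_zero {n : ℕ} {P : E n → ℝ} (hP : ContDiff ℝ ∞ P) {j : ℕ}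
    (hom : ∀ (t : ℝ) (x : E n), P (t • x) = t ^ j * P x) {i : ℕ} (hij : i ≠ j) :
    iteratedFDeriv ℝ i P 0 = 0 := by
  have h1 : iteratedFDeriv ℝ i (P ∘ ((2 : ℝ) • ContinuousLinearMap.id ℝ (E n))) 0 =
      (iteratedFDeriv ℝ i P (((2 : ℝ) • ContinuousLinearMap.id ℝ (E n)) 0)).compContinuousLinearMap
        (fun _ => (2 : ℝ) • ContinuousLinearMap.id ℝ (E n)) :=
    ContinuousLinearMap.iteratedFDeriv_comp_right _ (hP.of_le (by exact_mod_cast le_top)) _ le_rfl
  have h2 : P ∘ ((2 : ℝ) • ContinuousLinearMap.id ℝ (E n)) = fun x => (2 : ℝ) ^ j • P x := by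
    funext x
    have e : ((2 : ℝ) • ContinuousLinearMap.id ℝ (E n)) x = (2 : ℝ) • x := rfl
    rw [Function.comp_apply, e, hom, smul_eq_mul]
  rw [h2] at h1
  have h3 : iteratedFDeriv ℝ i (fun x => (2 : ℝ) ^ j • P x) 0 = (2 : ℝ) ^ j • iteratedFDeriv ℝ i P 0 := by
    exact iteratedFDeriv_const_smul_apply' (a := (2 : ℝ) ^ j) (hP.contDiffAt.of_le (by exact_mod_cast le_top))
  rw [h3] at h1
  ext v
  have h4 := congrArg (fun F => F v) h1
  simp only [ContinuousMultilinearMap.smul_apply,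
    ContinuousMultilinearMap.compContinuousLinearMap_apply, map_zero, smul_eq_mul,
    ContinuousLinearMap.smul_apply, ContinuousLinearMap.id_apply] at h4
  have h5 : (iteratedFDeriv ℝ i P 0) (fun k => (2 : ℝ) • v k) = 2 ^ i * (iteratedFDeriv ℝ i P 0) v := by
    have := (iteratedFDeriv ℝ i P 0).map_smul_univ (fun _ => (2 : ℝ)) v
    simpa using this
  rw [h5] at h4
  have h6 : ((2 : ℝ) ^ j - 2 ^ i) * (iteratedFDeriv ℝ i P 0) v = 0 := by linarith
  rcases mul_eq_zero.1 h6 with h | h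
  · exfalso
    have h7 : (2 : ℝ) ^ i = 2 ^ j := by linarith
    exact hij (pow_right_injective₀ (by norm_num) (by norm_num) h7)
  · simpa using h

end Pool.Agent.W753.VO
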