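import Mathlib
import Pool.Agent.Helper82.OS.HausFin
import Pool.Agent.W753.VO.Solid

/-!
Assembly: harmonic polynomials on `ℝ^n`, `n ≥ 3`, with large order of vanishing at the origin whose
zero set on the sphere of radius `1/2` has small Hausdorff measure.
-/

set_option autoImplicit false

open Finset MeasureTheory Filter Topology
open scoped ContDiff ENNReal NNReal

namespace Pool.Agent.W753.VO

open Pool.Agent.Helper749.Bi (E ev pd lap pd_smooth lap_eq lap_mul lap_sum lap_cmul lap_scale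
  pd_cmul pd_mul smooth_scale)

variable {d : ℕ}

/-- parametrisation of a slice of the sphere -/
noncomputable def slm (c ρ : ℝ) (y : E (d + 1)) : E (d + 2) :=
  WithLp.toLp 2 (Fin.cons c (fun i => ρ * y i) : Fin (d + 2) → ℝ)

lemma slm_lip (c ρ : ℝ) (hρ : 0 ≤ ρ) :
    LipschitzWith ⟨ρ, hρ⟩ (slm c ρ : E (d + 1) → E (d + 2)) := by
  apply LipschitzWith.of_dist_le_mul
  intro y y'
  rw [EuclideanSpace.dist_eq, EuclideanSpace.dist_eq, Fin.sum_univ_succ]
  simp only [slm, Fin.cons_zero, Fin.cons_succ, dist_self, Real.dist_eq]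
  have h1 : (0 : ℝ) ^ 2 + ∑ i : Fin (d + 1), |ρ * y i - ρ * y' i| ^ 2 =
      ρ ^ 2 * ∑ i : Fin (d + 1), |y i - y' i| ^ 2 := by
    rw [Finset.mul_sum]
    have : (0 : ℝ) ^ 2 = 0 := by norm_num
    rw [this, zero_add]
    apply Finset.sum_congr rfl
    intro i _
    rw [← mul_sub, abs_mul, mul_pow, sq_abs ρ]
  rw [h1, Real.sqrt_mul (sq_nonneg ρ), Real.sqrt_sq hρ]
  exact le_rfl

lemma slice_subset (c R : ℝ) :
    {x : E (d + 2) | ‖x‖ = R ∧ x 0 = c} ⊆
      slm c (Real.sqrt (R ^ 2 - c ^ 2)) '' (Metric.sphere (0 : E (d + 1)) 1) := by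
  rintro x ⟨hx, hc⟩
  have hsum : ‖x‖ ^ 2 = x 0 ^ 2 + ∑ i : Fin (d + 1), x i.succ ^ 2 := by
    rw [EuclideanSpace.norm_sq_eq, Fin.sum_univ_succ]
    simp
  have hS : R ^ 2 - c ^ 2 = ∑ i : Fin (d + 1), x i.succ ^ 2 := by
    rw [hx, hc] at hsum
    linarith
  have hS0 : 0 ≤ ∑ i : Fin (d + 1), x i.succ ^ 2 := Finset.sum_nonneg fun i _ => sq_nonneg _
  rcases eq_or_lt_of_le hS0 with h0 | h0
  · refine ⟨EuclideanSpace.single 0 1, by simp, ?_⟩
    have h2 : ∀ i : Fin (d + 1), x i.succ = 0 := by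
      intro i
      have := (Finset.sum_eq_zero_iff_of_nonneg (fun i _ => sq_nonneg (x (Fin.succ i)))).1 h0.symm i
        (Finset.mem_univ i)
      simpa using this
    ext i
    refine Fin.cases ?_ ?_ i
    · simp [slm, hc]
    · intro k
      rw [hS, ← h0]
      simp [slm, h2 k]
  · set ρ := Real.sqrt (R ^ 2 - c ^ 2) with hρ
    have hρ0 : 0 < ρ := by rw [hρ, hS]; exact Real.sqrt_pos.2 h0
    have hρ2 : ρ ^ 2 = ∑ i : Fin (d + 1), x i.succ ^ 2 := by
      rw [hρ, Real.sq_sqrt (by rw [hS]; exact hS0), hS]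
    refine ⟨WithLp.toLp 2 (fun i => x i.succ / ρ), ?_, ?_⟩
    · rw [mem_sphere_zero_iff_norm]
      have h3 : ‖(WithLp.toLp 2 (fun i : Fin (d + 1) => x i.succ / ρ) : E (d + 1))‖ ^ 2 = 1 := by
        rw [EuclideanSpace.norm_sq_eq]
        simp only [Real.norm_eq_abs, sq_abs, div_pow]
        rw [← Finset.sum_div, ← hρ2, div_self (by positivity)]
      have h4 := norm_nonneg (WithLp.toLp 2 (fun i : Fin (d + 1) => x i.succ / ρ) : E (d + 1))
      nlinarith
    · ext i
      refine Fin.cases ?_ ?_ i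
      · simp [slm, hc]
      · intro k
        simp only [slm, Fin.cons_succ]
        field_simp

lemma slice_measure (c R : ℝ) :
    (Measure.hausdorffMeasure (d : ℝ) : Measure (E (d + 2))) {x : E (d + 2) | ‖x‖ = R ∧ x 0 = c} ≤
      ENNReal.ofReal (Real.sqrt (R ^ 2 - c ^ 2)) ^ d *
        (Measure.hausdorffMeasure (d : ℝ) : Measure (E (d + 1))) (Metric.sphere 0 1) := by
  refine (measure_mono (slice_subset c R)).trans ?_
  have h := (slm_lip (d := d) c (Real.sqrt (R ^ 2 - c ^ 2)) (Real.sqrt_nonneg _)).hausdorffMeasure_image_le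
    (Nat.cast_nonneg d) (Metric.sphere (0 : E (d + 1)) 1)
  refine h.trans (le_of_eq ?_)
  congr 1
  rw [ENNReal.rpow_natCast]
  congr 1
  rw [ENNReal.ofReal]
  congr 1
  ext
  rw [Real.coe_toNNReal _ (Real.sqrt_nonneg _)]
  rfl

/-- a nonzero homogeneous function has a nonzero derivative at the origin -/
lemma homog_iter {n : ℕ} {P : E n → ℝ} (hP : ContDiff ℝ ∞ P) {j : ℕ}
    (hom : ∀ (t : ℝ) (x : E n), P (t • x) = t ^ j * P x)
    (h0 : iteratedFDeriv ℝ j P 0 = 0) (x : E n) : P x = 0 := by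
  set g : ℝ →L[ℝ] E n := (ContinuousLinearMap.id ℝ ℝ).smulRight x with hg
  have hg1 : ∀ t : ℝ, g t = t • x := by intro t; simp [hg]
  have h1 : iteratedFDeriv ℝ j (P ∘ g) 0 =
      (iteratedFDeriv ℝ j P (g 0)).compContinuousLinearMap (fun _ => g) :=
    ContinuousLinearMap.iteratedFDeriv_comp_right _ (hP.of_le (by exact_mod_cast le_top)) _ le_rfl
  have h2 : P ∘ g = fun t => P x * t ^ j := by
    funext t
    rw [Function.comp_apply, hg1, hom, mul_comm]
  have h3 : iteratedDeriv j (P ∘ g) 0 = P x * (j.factorial : ℝ) := by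
    rw [h2, iteratedDeriv_const_mul_field, iteratedDeriv_fun_pow_zero, if_pos rfl]
  rw [iteratedDeriv_eq_iteratedFDeriv, h1, map_zero, h0] at h3
  simp only [ContinuousMultilinearMap.compContinuousLinearMap_apply,
    ContinuousMultilinearMap.zero_apply] at h3
  have h4 : (j.factorial : ℝ) ≠ 0 := by exact_mod_cast j.factorial_ne_zero
  rcases mul_eq_zero.1 h3.symm with h | h
  · exact h
  · exact absurd h h4

/-- the harmonic polynomial -/
noncomputable def uu (d N : ℕ) (a : ℕ → ℝ) (x : E (d + 2)) : ℝ :=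
  ∑ j ∈ range (N + 1), a j * Hh d j ((2 : ℝ) • x)

lemma uu_smooth (N : ℕ) (a : ℕ → ℝ) : ContDiff ℝ ∞ (uu d N a) := by
  unfold uu
  apply ContDiff.sum
  intro j _
  exact contDiff_const.mul (smooth_scale (Hh_smooth d j) 2)

lemma uu_lap (hd : 1 ≤ d) (N : ℕ) (a : ℕ → ℝ) (x : E (d + 2)) : lap (uu d N a) x = 0 := by
  have h : lap (uu d N a) = fun x => ∑ j ∈ range (N + 1),
      a j * (2 ^ 2 * lap (Hh d j) ((2 : ℝ) • x)) := by
    unfold uu
    rw [lap_sum (range (N + 1)) (fun j => contDiff_const.mul (smooth_scale (Hh_smooth d j) 2))]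
    funext x
    apply Finset.sum_congr rfl
    intro j _
    rw [lap_cmul (smooth_scale (Hh_smooth d j) 2), lap_scale (Hh_smooth d j)]
  rw [h]
  simp only [Hh_lap d _ hd, mul_zero, Finset.sum_const_zero]

lemma harmonic_of_lap {n : ℕ} {f : E n → ℝ} (hf : ContDiff ℝ ∞ f) (hl : ∀ x, lap f x = 0) (x : E n) :
    InnerProductSpace.HarmonicAt f x := by
  refine ⟨hf.contDiffAt.of_le (by norm_cast), ?_⟩
  have : Laplacian.laplacian f = 0 := by
    rw [InnerProductSpace.laplacian_eq_iteratedFDeriv_orthonormalBasis f (EuclideanSpace.basisFun (Fin n) ℝ)]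
    funext y
    have := hl y
    unfold lap at this
    simpa using this
  rw [this]

lemma uu_iter (N : ℕ) (a : ℕ → ℝ) (i : ℕ) (x : E (d + 2)) :
    iteratedFDeriv ℝ i (uu d N a) x =
      ∑ j ∈ range (N + 1), iteratedFDeriv ℝ i (fun x => a j * Hh d j ((2 : ℝ) • x)) x := by
  unfold uu
  rw [iteratedFDeriv_fun_sum_apply]
  intro j _
  exact ((contDiff_const.mul (smooth_scale (Hh_smooth d j) 2)).of_le
    (by exact_mod_cast le_top)).contDiffAt

lemma term_homog (j : ℕ) (c t : ℝ) (x : E (d + 2)) :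
    c * Hh d j ((2 : ℝ) • (t • x)) = t ^ j * (c * Hh d j ((2 : ℝ) • x)) := by
  rw [smul_comm, Hh_homog]
  ring

lemma uu_iter_zero (N : ℕ) (a : ℕ → ℝ) (r : ℕ) (ha : ∀ j ≤ r, a j = 0) (i : ℕ) (hi : i ≤ r) :
    iteratedFDeriv ℝ i (uu d N a) 0 = 0 := by
  rw [uu_iter]
  apply Finset.sum_eq_zero
  intro j _
  rcases Nat.lt_or_ge r j with h | h
  · exact iter_zero (contDiff_const.mul (smooth_scale (Hh_smooth d j) 2))
      (fun t x => term_homog j (a j) t x) (by omega)
  · rw [ha j h]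
    simp only [zero_mul]
    rw [iteratedFDeriv_fun_zero]
    rfl

lemma uu_order (N : ℕ) (a : ℕ → ℝ) (x : E (d + 2)) (hx : uu d N a x ≠ 0) :
    ∃ i, iteratedFDeriv ℝ i (uu d N a) 0 ≠ 0 := by
  by_contra hcon
  push Not at hcon
  apply hx
  unfold uu
  apply Finset.sum_eq_zero
  intro j hj
  have h1 := hcon j
  rw [uu_iter, Finset.sum_eq_single j] at h1
  · exact homog_iter (contDiff_const.mul (smooth_scale (Hh_smooth d j) 2))
      (fun t x => term_homog j (a j) t x) h1 x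
  · intro i _ hij
    exact iter_zero (contDiff_const.mul (smooth_scale (Hh_smooth d i) 2))
      (fun t x => term_homog i (a i) t x) (Ne.symm hij)
  · intro h
    exact absurd hj h

theorem main (hd : 1 ≤ d) (r : ℕ) (ε : ℝ) (hε : 0 < ε) :
    ∃ (u : E (d + 2) → ℝ) (N : ℕ), r < N ∧ (∀ x, InnerProductSpace.HarmonicAt u x) ∧
      (∀ i < N, iteratedFDeriv ℝ i u 0 = 0) ∧ iteratedFDeriv ℝ N u 0 ≠ 0 ∧
      (Measure.hausdorffMeasure (d : ℝ) : Measure (E (d + 2)))
        {x : E (d + 2) | ‖x‖ = 1 / 2 ∧ u x = 0} < ENNReal.ofReal ε := by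
  classical
  have hκ := Pool.Agent.Helper82.OS.B08_sphere_finite d
  set κ : ℝ := ((Measure.hausdorffMeasure (d : ℝ) : Measure (E (d + 1))) (Metric.sphere 0 1)).toReal
    with hκdef
  have hκ' : (Measure.hausdorffMeasure (d : ℝ) : Measure (E (d + 1))) (Metric.sphere 0 1) =
      ENNReal.ofReal κ := (ENNReal.ofReal_toReal hκ).symm
  have hκ0 : 0 ≤ κ := ENNReal.toReal_nonneg
  -- the size of the cap
  set η : ℝ := min (1 / 2) (ε / (2 * ((r : ℝ) + 1) * (κ + 1))) with hη
  have hη0 : 0 < η := by positivity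
  have hη1 : η ≤ 1 / 2 := min_le_left _ _
  have hη2 : ((r : ℝ) + 1) * (η * κ) < ε := by
    have h1 : η ≤ ε / (2 * ((r : ℝ) + 1) * (κ + 1)) := min_le_right _ _
    rw [le_div_iff₀ (by positivity)] at h1
    have h2 : ((r : ℝ) + 1) * (η * κ) ≤ ((r : ℝ) + 1) * (η * (κ + 1)) := by gcongr; linarith
    nlinarith
  obtain ⟨m, hm0, hm⟩ := zeros_near d r (1 - η ^ 2) (by nlinarith) (by nlinarith)
  obtain ⟨N, a, ha, hf⟩ := ff_decomp d r m hd
  -- value on the sphere
  have hval : ∀ x : E (d + 2), ‖x‖ = 1 / 2 →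
      uu d N a x = (Qp d r m).eval ((1 / 2 + x 0) ^ m) := by
    intro x hx
    have h1 : ‖(2 : ℝ) • x‖ = 1 := by rw [norm_smul, hx]; norm_num
    have h2 : uu d N a x = (ff d r m).eval (2 * x 0) := by
      rw [hf, Polynomial.eval_finsetSum]
      unfold uu
      apply Finset.sum_congr rfl
      intro j _
      rw [Hh_sphere d j _ h1]
      simp
    rw [h2, ff_eval]
    congr 2
    ring
  -- nonvanishing
  have hne : uu d N a (EuclideanSpace.single 0 (-1 / 2 : ℝ)) ≠ 0 := by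
    rw [hval _ (by simp)]
    have e : (1 / 2 + (EuclideanSpace.single 0 (-1 / 2 : ℝ) : E (d + 2)) 0) ^ m = 0 := by
      simp
      constructor
      · norm_num
      · omega
    rw [e, ← Polynomial.coeff_zero_eq_eval_zero, Qp_coeff_zero]
    exact (cc_pos d r 0).ne'
  have hex := uu_order N a _ hne
  refine ⟨uu d N a, Nat.find hex, ?_, fun x => harmonic_of_lap (uu_smooth N a) (uu_lap hd N a) x,
    ?_, Nat.find_spec hex, ?_⟩
  · by_contra hcon
    exact Nat.find_spec hex (uu_iter_zero N a r ha _ (not_lt.1 hcon))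
  · intro i hi
    have := Nat.find_min hex hi
    push Not at this
    exact this
  · -- the measure
    set S : Finset ℝ := (Qp d r m).roots.toFinset with hS
    have hScard : S.card ≤ r + 1 := by
      refine (Multiset.toFinset_card_le _).trans ?_
      exact (Polynomial.card_roots' _).trans (Qp_natDegree d r m)
    have hcov : {x : E (d + 2) | ‖x‖ = 1 / 2 ∧ uu d N a x = 0} ⊆
        ⋃ y ∈ S, {x : E (d + 2) | ‖x‖ = 1 / 2 ∧ (1 / 2 + x 0) ^ m = y ∧ uu d N a x = 0} := by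
      rintro x ⟨hx, hu⟩
      rw [Set.mem_iUnion₂]
      refine ⟨(1 / 2 + x 0) ^ m, ?_, hx, rfl, hu⟩
      rw [hS, Multiset.mem_toFinset, Polynomial.mem_roots (Qp_ne_zero d r m)]
      rw [hval x hx] at hu
      exact hu
    have hpiece : ∀ y ∈ S, (Measure.hausdorffMeasure (d : ℝ) : Measure (E (d + 2)))
        {x : E (d + 2) | ‖x‖ = 1 / 2 ∧ (1 / 2 + x 0) ^ m = y ∧ uu d N a x = 0} ≤
        ENNReal.ofReal (η * κ) := by
      intro y _
      rcases Set.eq_empty_or_nonempty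
        {x : E (d + 2) | ‖x‖ = 1 / 2 ∧ (1 / 2 + x 0) ^ m = y ∧ uu d N a x = 0} with h | ⟨x0, hx0⟩
      · rw [h, measure_empty]; exact zero_le
      · obtain ⟨hx1, hx2, hx3⟩ := hx0
        have hrange : ∀ x : E (d + 2), ‖x‖ = 1 / 2 → 0 ≤ 1 / 2 + x 0 ∧ 1 / 2 + x 0 ≤ 1 := by
          intro x hx
          have h1 : ‖x 0‖ ≤ ‖x‖ := PiLp.norm_apply_le x 0
          rw [hx, Real.norm_eq_abs, abs_le] at h1
          constructor <;> linarith [h1.1, h1.2]
        have hsub : {x : E (d + 2) | ‖x‖ = 1 / 2 ∧ (1 / 2 + x 0) ^ m = y ∧ uu d N a x = 0} ⊆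
            {x : E (d + 2) | ‖x‖ = 1 / 2 ∧ x 0 = x0 0} := by
          rintro x ⟨h1, h2, _⟩
          refine ⟨h1, ?_⟩
          have h3 : (1 / 2 + x 0) ^ m = (1 / 2 + x0 0) ^ m := by rw [h2, hx2]
          have h4 := (pow_left_inj₀ (hrange x h1).1 (hrange x0 hx1).1 hm0.ne').1 h3
          linarith
        refine (measure_mono hsub).trans ((slice_measure _ _).trans ?_)
        rw [hκ', ENNReal.ofReal_mul hη0.le]
        gcongr
        -- radius
        have hs : 1 - η ^ 2 < 1 / 2 + x0 0 := by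
          by_contra hcon
          have h5 := hm _ (hrange x0 hx1).1 (not_lt.1 hcon)
          rw [hval x0 hx1] at hx3
          exact h5 hx3
        have hs1 := (hrange x0 hx1).2
        have hr : Real.sqrt ((1 / 2) ^ 2 - x0 0 ^ 2) ≤ η := by
          apply Real.sqrt_le_iff.2
          refine ⟨hη0.le, ?_⟩
          have e : (1 / 2 : ℝ) ^ 2 - x0 0 ^ 2 = (1 / 2 + x0 0) * (1 - (1 / 2 + x0 0)) := by ring
          rw [e]
          have h6 : 0 ≤ 1 - (1 / 2 + x0 0) := by linarith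
          nlinarith
        calc ENNReal.ofReal (Real.sqrt ((1 / 2) ^ 2 - x0 0 ^ 2)) ^ d
            ≤ ENNReal.ofReal η ^ d := by gcongr
          _ ≤ ENNReal.ofReal η ^ 1 := by
              apply pow_le_pow_right_of_le_one' _ hd
              rw [ENNReal.ofReal_le_one]
              linarith
          _ = ENNReal.ofReal η := pow_one _
    calc (Measure.hausdorffMeasure (d : ℝ) : Measure (E (d + 2)))
          {x : E (d + 2) | ‖x‖ = 1 / 2 ∧ uu d N a x = 0}
        ≤ ∑ y ∈ S, (Measure.hausdorffMeasure (d : ℝ) : Measure (E (d + 2)))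
          {x : E (d + 2) | ‖x‖ = 1 / 2 ∧ (1 / 2 + x 0) ^ m = y ∧ uu d N a x = 0} :=
          (measure_mono hcov).trans (measure_biUnion_finset_le _ _)
      _ ≤ ∑ _y ∈ S, ENNReal.ofReal (η * κ) := Finset.sum_le_sum hpiece
      _ = (S.card : ℝ≥0∞) * ENNReal.ofReal (η * κ) := by rw [Finset.sum_const, nsmul_eq_mul]
      _ ≤ ENNReal.ofReal ((r : ℝ) + 1) * ENNReal.ofReal (η * κ) := by
          gcongr
          rw [show ((r : ℝ) + 1) = ((r + 1 : ℕ) : ℝ) by push_cast; ring, ENNReal.ofReal_natCast]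
          exact_mod_cast hScard
      _ = ENNReal.ofReal (((r : ℝ) + 1) * (η * κ)) := (ENNReal.ofReal_mul (by positivity)).symm
      _ < ENNReal.ofReal ε := (ENNReal.ofReal_lt_ofReal_iff hε).2 hη2

end Pool.Agent.W753.VO
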